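import Pool.Agent.H43.Copula

set_option autoImplicit false
open MeasureTheory unitInterval Pool.Agent.H43.Copula

namespace Pool.Agent.Results.MP_2d7e0f_pr.Attained

/-- For every `n ≥ 3` the supremum `sₙ` is attained by some `n`-copula. -/
theorem result (n : ℕ) (hn : 3 ≤ n) :
    ∃ C : (Fin n → I) → I, IsCopula C ∧
      volume {x : Fin n → I | (C x : ℝ) = lowerW x} = sSupMeasure n :=
  attained (by omega)

end Pool.Agent.Results.MP_2d7e0f_pr.Attained
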